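import Pool.Agent.T2H31.Sph7

/-!
# Maass forms of prime level which are not tempered at the archimedean place and at several primes

We bound the number of Maass cusp forms for `Γ₀(N)`, `N` prime, whose Laplace eigenvalue is at most
`1/4 - ϑ²` and which violate the Ramanujan conjecture, by a prescribed amount, at `k` or more primes
of a given finite set `P`. The case `k = 0` concerns the archimedean place alone.
-/

set_option autoImplicit false

namespace Pool.Agent.Results.MP_8410ab_nt.ExceptionalEigenvalues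

open Complex MeasureTheory UpperHalfPlane
open scoped MatrixGroups Modular

/-- A function on the upper half plane as a function of a complex variable
(only its values on the open upper half plane matter). -/
noncomputable def onC (f : ℍ → ℝ) (z : ℂ) : ℝ := f (ofComplex z)

/-- `z ↦ f(-1/(z + k))`. For `N` prime the standard fundamental domain `𝒟` of `SL(2, ℤ)` and its
translates under `z ↦ -1/(z + k)`, `0 ≤ k < N`, make up a fundamental domain of `Γ₀(N)`. -/
noncomputable def tr (f : ℍ → ℝ) (k : ℕ) (z : ℍ) : ℝ :=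
  f ((ModularGroup.S * ModularGroup.T ^ (k : ℤ)) • z)

/-- The Petersson scalar product of `f` and `g` over a fundamental domain of `Γ₀(N)`, `N` prime. -/
noncomputable def petersson (N : ℕ) (f g : ℍ → ℝ) : ℝ :=
  (∫ z in 𝒟, f z * g z) + ∑ k ∈ Finset.range N, ∫ z in 𝒟, tr f k z * tr g k z

/-- `f` is a real valued Maass cusp form for `Γ₀(N)` (`N` prime), square integrable over
`Γ₀(N)\ℍ`, with `-y² Δ f = lam f`, and cuspidal at both cusps `∞` and `0`. -/
structure IsMaassCusp (N : ℕ) (f : ℍ → ℝ) (lam : ℝ) : Prop where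
  smooth : ContDiffOn ℝ 2 (onC f) {z : ℂ | 0 < z.im}
  invariant : ∀ γ ∈ CongruenceSubgroup.Gamma0 N, ∀ z : ℍ, f (γ • z) = f z
  laplace : ∀ z : ℂ, 0 < z.im → z.im ^ 2 * Laplacian.laplacian (onC f) z = -lam * onC f z
  nonneg : 0 ≤ lam
  cuspInfty : ∀ y : ℝ, 0 < y → ∫ x in (0 : ℝ)..1, onC f (x + y * Complex.I) = 0
  cuspZero : ∀ y : ℝ, 0 < y → ∫ x in (0 : ℝ)..N, onC f (-1 / (x + y * Complex.I)) = 0
  squareIntegrable : IntegrableOn (fun z : ℍ => f z ^ 2) 𝒟
  squareIntegrable' : ∀ k < N, IntegrableOn (fun z : ℍ => tr f k z ^ 2) 𝒟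

/-- `f` is an eigenfunction of the Hecke operator at the prime `p` with normalised eigenvalue `a`,
i.e. `f(pz) + ∑_{b mod p} f((z + b)/p) = p^{1/2} a f(z)`. -/
def IsHeckeEigen (f : ℍ → ℝ) (p : ℕ) (a : ℝ) : Prop :=
  ∀ z : ℂ, 0 < z.im →
    onC f (p * z) + ∑ b ∈ Finset.range p, onC f ((z + b) / p) = Real.sqrt p * a * onC f z

theorem lapl_eq (F : ℂ → ℝ) (z : ℂ) : Laplacian.laplacian F z = Pool.Agent.T2H31.lapl F z := by
  rw [InnerProductSpace.laplacian_eq_iteratedFDeriv_complexPlane]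
  simp only [iteratedFDeriv_two_apply, Pool.Agent.T2H31.lapl]
  rfl

theorem IsMaassCusp.hyp {N : ℕ} {f : ℍ → ℝ} {lam : ℝ} (h : IsMaassCusp N f lam) (u : ℍ) :
    Pool.Agent.T2H31.hyp f u = -lam * f u := by
  have h1 := h.laplace u u.im_pos
  rw [lapl_eq] at h1
  rw [Pool.Agent.T2H31.hyp]
  have h2 : onC f u = f u := by simp [onC]
  rw [h2] at h1
  exact h1

theorem IsMaassCusp.inv {N : ℕ} {f : ℍ → ℝ} {lam : ℝ} (h : IsMaassCusp N f lam)
    (γ : CongruenceSubgroup.Gamma0 N) (z : ℍ) : f ((γ : SL(2, ℤ)) • z) = f z :=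
  h.invariant γ γ.2 z

theorem IsMaassCusp.cusp {N : ℕ} {f : ℍ → ℝ} {lam : ℝ} (h : IsMaassCusp N f lam)
    (y : ℝ) (hy : 0 < y) :
    ∫ x in (-(1 / 2) : ℝ)..(1 / 2), Pool.Agent.T2H31.fc f (Pool.Agent.T2H31.pt y x) = 0 := by
  rw [Pool.Agent.T2H31.shift_infty h.inv hy]
  exact h.cuspInfty y hy

theorem IsMaassCusp.cusp0 {N : ℕ} {f : ℍ → ℝ} {lam : ℝ} (h : IsMaassCusp N f lam)
    (y : ℝ) (hy : 0 < y) :
    ∫ x in (-(1 / 2) : ℝ)..(-(1 / 2) + N), Pool.Agent.T2H31.fc (fun u => f (ModularGroup.S • u))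
      (Pool.Agent.T2H31.pt y x) = 0 := by
  rw [Pool.Agent.T2H31.shift_zero h.inv hy]
  refine Eq.trans ?_ (h.cuspZero y hy)
  apply intervalIntegral.integral_congr
  intro x _
  have hx := Pool.Agent.T2H31.pt_mem hy x
  show f (ModularGroup.S • (ofComplex (Pool.Agent.T2H31.pt y x))) =
    f (ofComplex (-1 / ((x : ℂ) + y * Complex.I)))
  congr 1
  apply UpperHalfPlane.ext
  have hz : (0 : ℝ) < (Pool.Agent.T2H31.pt y x).im := hx
  have e : ((ModularGroup.S • (ofComplex (Pool.Agent.T2H31.pt y x)) : ℍ) : ℂ) =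
      -1 / (x + y * Complex.I) := by
    rw [UpperHalfPlane.modular_S_smul, ofComplex_apply_of_im_pos hz]
    show (-(Pool.Agent.T2H31.pt y x))⁻¹ = _
    rw [Pool.Agent.T2H31.pt, inv_neg, neg_div, one_div]
  have him : 0 < (-1 / ((x : ℂ) + y * Complex.I)).im := by
    rw [← e]
    exact UpperHalfPlane.im_pos _
  rw [e, ofComplex_apply_of_im_pos him]

theorem IsHeckeEigen.heckeP {f : ℍ → ℝ} {p : ℕ} {a : ℝ} (h : IsHeckeEigen f p a) :
    Pool.Agent.T2H31.HeckeP f p a := by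
  intro z
  have h1 := h z z.im_pos
  have h2 : onC f z = f z := by simp [onC]
  rw [h2] at h1
  rw [← h1]
  congr 1
  · simp only [onC, Pool.Agent.T2H31.hp]
    congr 2
    simp
  · refine Finset.sum_congr rfl fun b _ => ?_
    simp only [onC, Pool.Agent.T2H31.hp]
    congr 2
    simp

theorem sum_rep (N : ℕ) (f g : ℍ → ℝ) : petersson N f g =
    ∑ r : Option (Fin N), ∫ u in 𝒟, f (Pool.Agent.T2H31.rep N r • u) * g (Pool.Agent.T2H31.rep N r • u) := by
  rw [Fintype.sum_option, petersson, Finset.sum_range]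
  congr 1
  simp [Pool.Agent.T2H31.rep]

/-- **At most `C N^{1 - ϑ/96} (log N)⁻³ (∑_{p ∈ P} (log p / log N)³ N^{-θ_p/(24(k+1))})^k + C N^{11/12}`
orthonormal Maass cusp forms for `Γ₀(N)`, `N` prime, have Laplace eigenvalue at most `1/4 - ϑ²` and
Satake parameters of size at least `p^{θ_p}` at `k` or more primes `p ∈ P`.** For `k = 0` this says
that the number of Laplace eigenvalues `≤ 1/4 - ϑ²` of cusp forms for `Γ₀(N)`, counted with
multiplicity, is at most `C N^{1 - ϑ/96} (log N)⁻³ + C N^{11/12}`. -/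
theorem result (k : ℕ) : ∃ C : ℝ, 0 < C ∧
    ∀ N : ℕ, N.Prime → ∀ ϑ : ℝ, 0 ≤ ϑ →
    ∀ P : Finset ℕ, (∀ p ∈ P, p.Prime ∧ (p : ℝ) ≤ (N : ℝ) ^ (1 / (24 * (k + 1)) : ℝ)) →
    ∀ θ : ℕ → ℝ, (∀ p ∈ P, 0 ≤ θ p) →
    ∀ (n : ℕ) (f : Fin n → ℍ → ℝ) (lam : Fin n → ℝ) (a : Fin n → ℕ → ℝ),
      (∀ j, IsMaassCusp N (f j) (lam j)) →
      (∀ j, ∀ p ∈ P, IsHeckeEigen (f j) p (a j p)) →
      (∀ i j, petersson N (f i) (f j) = if i = j then 1 else 0) →
      (∀ j, lam j ≤ 1 / 4 - ϑ ^ 2) →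
      (∀ j, k ≤ (P.filter fun p : ℕ => (p : ℝ) ^ θ p + (p : ℝ) ^ (-θ p) ≤ |a j p|).card) →
      (n : ℝ) ≤ C * ((N : ℝ) ^ (1 - ϑ / 96) / Real.log N ^ 3) *
          (∑ p ∈ P, (Real.log p / Real.log N) ^ 3 * (N : ℝ) ^ (-(θ p / (24 * (k + 1))))) ^ k +
        C * (N : ℝ) ^ (11 / 12 : ℝ) := by
  have hk' : (0 : ℝ) ≤ k := Nat.cast_nonneg k
  set C₁ : ℝ := 80000000 * (192 * (24 * (k + 1)) ^ 3) ^ k with hC₁
  have hC₁0 : 0 < C₁ := by positivity
  refine ⟨max C₁ 140000000000000, lt_max_of_lt_left hC₁0, ?_⟩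
  intro N hN ϑ hϑ P hP θ hθ n f lam a hf hH horth hlam hex
  have hN2 : (2 : ℝ) ≤ N := by exact_mod_cast hN.two_le
  have S : Pool.Agent.T2H31.Sys0 (CongruenceSubgroup.Gamma0 N) (Pool.Agent.T2H31.rep N) f lam 1 :=
    { smooth := fun j => (hf j).smooth
      inv := fun j => (hf j).inv
      lap := fun j u => (hf j).hyp u
      bound := fun j => by
        rw [abs_of_nonneg (hf j).nonneg]
        have := hlam j
        nlinarith [sq_nonneg ϑ]
      sq_int := fun j r => by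
        rcases r with _ | i
        · simpa [Pool.Agent.T2H31.rep] using (hf j).squareIntegrable
        · exact (hf j).squareIntegrable' i i.2
      norm := fun j => by
        have := horth j j
        rw [if_pos rfl, sum_rep] at this
        rw [← this]
        refine Finset.sum_congr rfl fun r _ => ?_
        refine setIntegral_congr_fun Pool.Agent.T2H31.meas_fd fun z _ => ?_
        exact sq _
      orth := fun i j hij => by
        rw [← sum_rep, horth i j, if_neg hij] }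
  have hq : ∀ j, 0 ≤ 1 / 4 - lam j := fun j => by
    have := hlam j
    nlinarith [sq_nonneg ϑ]
  have key := Pool.Agent.T2H31.final_U S hN (fun j y hy => (hf j).cusp y hy)
    (fun j y hy => (hf j).cusp0 y hy) k hP hθ a
    (fun j p hp => (hH j p hp).heckeP) hex hϑ (fun j => 1 / 2 + Real.sqrt (1 / 4 - lam j))
    (fun j => by
      have h1 : ϑ ≤ Real.sqrt (1 / 4 - lam j) := by
        apply Real.le_sqrt_of_sq_le
        have := hlam j
        linarith
      linarith)
    (fun j => by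
      have h2 := Real.sq_sqrt (hq j)
      have h3 : (1 / 2 + Real.sqrt (1 / 4 - lam j)) * (1 - (1 / 2 + Real.sqrt (1 / 4 - lam j))) =
          1 / 4 - Real.sqrt (1 / 4 - lam j) ^ 2 := by ring
      rw [h3, h2]
      ring)
  rw [Fintype.card_fin] at key
  have hl : 0 < Real.log N := Real.log_pos (by linarith)
  have hZ0 : 0 ≤ ∑ p ∈ P, (Real.log p / Real.log N) ^ 3 * (N : ℝ) ^ (-(θ p / (24 * (k + 1)))) := by
    refine Finset.sum_nonneg fun p hp => ?_
    have h3 : 0 ≤ Real.log p := Real.log_nonneg (by exact_mod_cast (hP p hp).1.one_lt.le)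
    positivity
  refine key.trans ?_
  gcongr
  · exact le_max_left _ _
  · exact le_max_right _ _

end Pool.Agent.Results.MP_8410ab_nt.ExceptionalEigenvalues
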