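import Pool.Agent.T2H31.Last

/-!
# Hecke–Maass forms of level one which are not tempered at several primes

For `k ≥ 1` we bound the number of Hecke–Maass cusp forms for `SL(2, ℤ)` with Laplace eigenvalue at
most `1/4 + T²` for which the Ramanujan conjecture fails (by a prescribed amount) at `k` or more
primes of a given finite set `P` of primes `p ≤ T^{1/(8k)}`.
-/

set_option autoImplicit false

namespace Pool.Agent.Results.MP_8410ab_nt.ExceptionalPrimes

open Complex MeasureTheory UpperHalfPlane ModularGroup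
open scoped MatrixGroups Modular

/-- A function on the upper half plane as a function of a complex variable
(only its values on the open upper half plane matter). -/
noncomputable def onC (f : ℍ → ℝ) (z : ℂ) : ℝ := f (ofComplex z)

/-- `f` is a real valued Hecke–Maass cusp form for `SL(2, ℤ)`, square integrable over the
fundamental domain for the hyperbolic area, `-y² Δ f = lam f`, and
`f(pz) + ∑_{b mod p} f((z + b)/p) = p^{1/2} a(p) f(z)` for every prime `p`.
So `a p = α + α⁻¹` where `α, α⁻¹` are the Satake parameters of `f` at `p`. -/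
structure IsHeckeMaass (f : ℍ → ℝ) (lam : ℝ) (a : ℕ → ℝ) : Prop where
  smooth : ContDiffOn ℝ 2 (onC f) {z : ℂ | 0 < z.im}
  invariant : ∀ (γ : SL(2, ℤ)) (z : ℍ), f (γ • z) = f z
  laplace : ∀ z : ℂ, 0 < z.im → z.im ^ 2 * Laplacian.laplacian (onC f) z = -lam * onC f z
  nonneg : 0 ≤ lam
  cuspidal : ∀ y : ℝ, 0 < y → ∫ x in (0 : ℝ)..1, onC f (x + y * Complex.I) = 0
  squareIntegrable : IntegrableOn (fun z : ℍ => f z ^ 2) 𝒟
  hecke : ∀ p : ℕ, p.Prime → ∀ z : ℂ, 0 < z.im →
    onC f (p * z) + ∑ b ∈ Finset.range p, onC f ((z + b) / p) = Real.sqrt p * a p * onC f z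

theorem lapl_eq (F : ℂ → ℝ) (z : ℂ) : Laplacian.laplacian F z = Pool.Agent.T2H31.lapl F z := by
  rw [InnerProductSpace.laplacian_eq_iteratedFDeriv_complexPlane]
  simp only [iteratedFDeriv_two_apply, Pool.Agent.T2H31.lapl]
  rfl

theorem IsHeckeMaass.hyp {f : ℍ → ℝ} {lam : ℝ} {a : ℕ → ℝ} (h : IsHeckeMaass f lam a) (u : ℍ) :
    Pool.Agent.T2H31.hyp f u = -lam * f u := by
  have h1 := h.laplace u u.im_pos
  rw [lapl_eq] at h1
  rw [Pool.Agent.T2H31.hyp]
  have h2 : onC f u = f u := by simp [onC]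
  rw [h2] at h1
  exact h1

theorem IsHeckeMaass.cusp {f : ℍ → ℝ} {lam : ℝ} {a : ℕ → ℝ} (h : IsHeckeMaass f lam a) (y : ℝ) (hy : 0 < y) :
    ∫ x in (-(1 / 2) : ℝ)..(1 / 2), Pool.Agent.T2H31.fc f (Pool.Agent.T2H31.pt y x) = 0 := by
  have hper : Function.Periodic (fun x : ℝ => Pool.Agent.T2H31.fc f (Pool.Agent.T2H31.pt y x)) 1 := by
    intro x
    have hp := Pool.Agent.T2H31.per_of_inv h.invariant
      (ofComplex (Pool.Agent.T2H31.pt y x))
    have hy1 := Pool.Agent.T2H31.pt_mem hy x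
    have hy2 := Pool.Agent.T2H31.pt_mem hy (x + 1)
    simp only [Pool.Agent.T2H31.fc]
    rw [← hp]
    congr 1
    apply UpperHalfPlane.ext
    rw [Pool.Agent.T2H31.coe_hp (q := (1, 1, 1)) (by norm_num) (by norm_num),
      ofComplex_apply_of_im_pos hy1, ofComplex_apply_of_im_pos hy2]
    simp [Pool.Agent.T2H31.pt]
    ring
  have h1 := hper.intervalIntegral_add_eq (-(1 / 2)) 0
  have e1 : (-(1 / 2) : ℝ) + 1 = 1 / 2 := by norm_num
  rw [e1, zero_add] at h1
  rw [h1]
  exact h.cuspidal y hy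

theorem IsHeckeMaass.heckeP {f : ℍ → ℝ} {lam : ℝ} {a : ℕ → ℝ} (h : IsHeckeMaass f lam a) {p : ℕ}
    (hp : p.Prime) : Pool.Agent.T2H31.HeckeP f p (a p) := by
  intro z
  have h1 := h.hecke p hp z z.im_pos
  have h2 : onC f z = f z := by simp [onC]
  rw [h2] at h1
  rw [← h1]
  congr 1
  · simp only [onC, Pool.Agent.T2H31.hp]
    congr 2
    simp
  · refine Finset.sum_congr rfl fun b _ => ?_
    simp only [onC, Pool.Agent.T2H31.hp]
    congr 2
    simp

/-- **At most `C T² (∑_{p ∈ P} (log p / log T)³ T^{-θ_p/(8k)})^k + C T^{15/8}` Hecke–Maass cusp forms for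
`SL(2, ℤ)` with Laplace eigenvalue at most `1/4 + T²` have Satake parameters of size at least
`p^{θ_p}` (in particular violate, or just reach the edge of, the Ramanujan bound) at `k` or more
primes `p ∈ P`.** -/
theorem result (k : ℕ) (hk : 1 ≤ k) : ∃ C : ℝ, 0 < C ∧
    ∀ T : ℝ, 2 ≤ T →
    ∀ P : Finset ℕ, (∀ p ∈ P, p.Prime ∧ (p : ℝ) ≤ T ^ (1 / (8 * k) : ℝ)) →
    ∀ θ : ℕ → ℝ, (∀ p ∈ P, 0 ≤ θ p) →
    ∀ (n : ℕ) (f : Fin n → ℍ → ℝ) (lam : Fin n → ℝ) (a : Fin n → ℕ → ℝ),
      (∀ j, IsHeckeMaass (f j) (lam j) (a j)) →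
      (∀ i j, ∫ z in 𝒟, f i z * f j z = if i = j then 1 else 0) →
      (∀ j, lam j ≤ 1 / 4 + T ^ 2) →
      (∀ j, k ≤ (P.filter fun p : ℕ => (p : ℝ) ^ θ p + (p : ℝ) ^ (-θ p) ≤ |a j p|).card) →
      (n : ℝ) ≤ C * T ^ 2 * (∑ p ∈ P, (Real.log p / Real.log T) ^ 3 * T ^ (-(θ p / (8 * k)))) ^ k +
        C * T ^ (15 / 8 : ℝ) := by
  have hk' : (1 : ℝ) ≤ k := by exact_mod_cast hk
  set C₁ : ℝ := 10000 * (192 * (8 * k) ^ 3) ^ k with hC₁
  have hC₁0 : 0 < C₁ := by positivity
  refine ⟨max C₁ 20000000000, lt_max_of_lt_left hC₁0, ?_⟩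
  intro T hT P hP θ hθ n f lam a hf horth hlam hex
  have S : Pool.Agent.T2H31.Sys f lam (1 / 4 + T ^ 2) :=
    { smooth := fun j => (hf j).smooth
      inv := fun j => (hf j).invariant
      lap := fun j u => (hf j).hyp u
      bound := fun j => by
        rw [abs_of_nonneg (hf j).nonneg]
        exact hlam j
      sq_int := fun j => (hf j).squareIntegrable
      norm := fun j => by
        have := horth j j
        rw [if_pos rfl] at this
        rw [← this]
        refine setIntegral_congr_fun Pool.Agent.T2H31.meas_fd fun z _ => ?_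
        exact sq _
      orth := fun i j hij => by
        rw [horth i j, if_neg hij] }
  have key := Pool.Agent.T2H31.final_T hT hk hP hθ S (fun j y hy => (hf j).cusp y hy) a
    (fun j p hp => (hf j).heckeP (hP p hp).1) hex
  rw [Fintype.card_fin] at key
  have hT0 : 0 < T := by linarith
  have hZ0 : 0 ≤ ∑ p ∈ P, (Real.log p / Real.log T) ^ 3 * T ^ (-(θ p / (8 * k))) := by
    refine Finset.sum_nonneg fun p hp => ?_
    have h3 : 0 ≤ Real.log p := Real.log_nonneg (by exact_mod_cast (hP p hp).1.one_lt.le)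
    have h4 : 0 ≤ Real.log T := Real.log_nonneg (by linarith)
    positivity
  refine key.trans ?_
  gcongr
  · exact le_max_left _ _
  · exact le_max_right _ _

end Pool.Agent.Results.MP_8410ab_nt.ExceptionalPrimes
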