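import Pool.Agent.T2H31.Dev1

/-!
# The proportion of the small primes at which a Maass form is not tempered

We bound the number of Hecke–Maass cusp forms for `Γ₀(N)`, `N` prime, with Laplace eigenvalue at
most `L` which are exceptional (`|a(p)| ≥ 2`) at `k` or more of the primes of a finite set, uniformly
in `k`, and deduce that for all but `(N L)^(1 - c / log log (N L))` of the forms at most a proportion
`ε` of the primes `p ≤ A log (N L)` is exceptional.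
-/

set_option autoImplicit false

namespace Pool.Agent.Results.MP_8410ab_nt.MostSmallPrimes

open Complex MeasureTheory UpperHalfPlane
open scoped MatrixGroups Modular

/-- A function on the upper half plane as a function of a complex variable
(only its values on the open upper half plane matter). -/
noncomputable def onC (f : ℍ → ℝ) (z : ℂ) : ℝ := f (ofComplex z)

/-- `z ↦ f(-1/(z + k))`. For `N` prime the standard fundamental domain `𝒟` of `SL(2, ℤ)` and its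
translates under `z ↦ -1/(z + k)`, `0 ≤ k < N`, make up a fundamental domain of `Γ₀(N)`. -/
noncomputable def tr (f : ℍ → ℝ) (k : ℕ) (z : ℍ) : ℝ :=
  f ((ModularGroup.S * ModularGroup.T ^ (k : ℤ)) • z)

/-- The Petersson scalar product of `f` and `g` over a fundamental domain of `Γ₀(N)`, `N` prime. -/
noncomputable def petersson (N : ℕ) (f g : ℍ → ℝ) : ℝ :=
  (∫ z in 𝒟, f z * g z) + ∑ k ∈ Finset.range N, ∫ z in 𝒟, tr f k z * tr g k z

/-- `f` is a real valued Hecke–Maass cusp form for `Γ₀(N)` (`N` prime), square integrable over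
`Γ₀(N)\ℍ`, with `-y² Δ f = lam f`, cuspidal at both cusps `∞` and `0`, and with
`f(pz) + ∑_{b mod p} f((z + b)/p) = p^{1/2} a(p) f(z)` for every prime `p ≠ N`. -/
structure IsHeckeMaass (N : ℕ) (f : ℍ → ℝ) (lam : ℝ) (a : ℕ → ℝ) : Prop where
  smooth : ContDiffOn ℝ 2 (onC f) {z : ℂ | 0 < z.im}
  invariant : ∀ γ ∈ CongruenceSubgroup.Gamma0 N, ∀ z : ℍ, f (γ • z) = f z
  laplace : ∀ z : ℂ, 0 < z.im → z.im ^ 2 * Laplacian.laplacian (onC f) z = -lam * onC f z
  nonneg : 0 ≤ lam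
  cuspInfty : ∀ y : ℝ, 0 < y → ∫ x in (0 : ℝ)..1, onC f (x + y * Complex.I) = 0
  cuspZero : ∀ y : ℝ, 0 < y → ∫ x in (0 : ℝ)..N, onC f (-1 / (x + y * Complex.I)) = 0
  squareIntegrable : IntegrableOn (fun z : ℍ => f z ^ 2) 𝒟
  squareIntegrable' : ∀ k < N, IntegrableOn (fun z : ℍ => tr f k z ^ 2) 𝒟
  hecke : ∀ p : ℕ, p.Prime → p ≠ N → ∀ z : ℂ, 0 < z.im →
    onC f (p * z) + ∑ b ∈ Finset.range p, onC f ((z + b) / p) = Real.sqrt p * a p * onC f z

theorem lapl_eq (F : ℂ → ℝ) (z : ℂ) : Laplacian.laplacian F z = Pool.Agent.T2H31.lapl F z := by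
  rw [InnerProductSpace.laplacian_eq_iteratedFDeriv_complexPlane]
  simp only [iteratedFDeriv_two_apply, Pool.Agent.T2H31.lapl]
  rfl

theorem IsHeckeMaass.hyp {N : ℕ} {f : ℍ → ℝ} {lam : ℝ} {a : ℕ → ℝ} (h : IsHeckeMaass N f lam a) (u : ℍ) :
    Pool.Agent.T2H31.hyp f u = -lam * f u := by
  have h1 := h.laplace u u.im_pos
  rw [lapl_eq] at h1
  rw [Pool.Agent.T2H31.hyp]
  have h2 : onC f u = f u := by simp [onC]
  rw [h2] at h1
  exact h1

theorem IsHeckeMaass.inv {N : ℕ} {f : ℍ → ℝ} {lam : ℝ} {a : ℕ → ℝ} (h : IsHeckeMaass N f lam a)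
    (γ : CongruenceSubgroup.Gamma0 N) (z : ℍ) : f ((γ : SL(2, ℤ)) • z) = f z :=
  h.invariant γ γ.2 z

theorem IsHeckeMaass.cusp {N : ℕ} {f : ℍ → ℝ} {lam : ℝ} {a : ℕ → ℝ} (h : IsHeckeMaass N f lam a)
    (y : ℝ) (hy : 0 < y) :
    ∫ x in (-(1 / 2) : ℝ)..(1 / 2), Pool.Agent.T2H31.fc f (Pool.Agent.T2H31.pt y x) = 0 := by
  rw [Pool.Agent.T2H31.shift_infty h.inv hy]
  exact h.cuspInfty y hy

theorem IsHeckeMaass.cusp0 {N : ℕ} {f : ℍ → ℝ} {lam : ℝ} {a : ℕ → ℝ} (h : IsHeckeMaass N f lam a)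
    (y : ℝ) (hy : 0 < y) :
    ∫ x in (-(1 / 2) : ℝ)..(-(1 / 2) + N), Pool.Agent.T2H31.fc (fun u => f (ModularGroup.S • u))
      (Pool.Agent.T2H31.pt y x) = 0 := by
  rw [Pool.Agent.T2H31.shift_zero h.inv hy]
  refine Eq.trans ?_ (h.cuspZero y hy)
  apply intervalIntegral.integral_congr
  intro x _
  have hx := Pool.Agent.T2H31.pt_mem hy x
  show f (ModularGroup.S • (ofComplex (Pool.Agent.T2H31.pt y x))) =
    f (ofComplex (-1 / ((x : ℂ) + y * Complex.I)))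
  congr 1
  apply UpperHalfPlane.ext
  have hz : (0 : ℝ) < (Pool.Agent.T2H31.pt y x).im := hx
  have e : ((ModularGroup.S • (ofComplex (Pool.Agent.T2H31.pt y x)) : ℍ) : ℂ) =
      -1 / (x + y * Complex.I) := by
    rw [UpperHalfPlane.modular_S_smul, ofComplex_apply_of_im_pos hz]
    show (-(Pool.Agent.T2H31.pt y x))⁻¹ = _
    rw [Pool.Agent.T2H31.pt, inv_neg, neg_div, one_div]
  have him : 0 < (-1 / ((x : ℂ) + y * Complex.I)).im := by
    rw [← e]
    exact UpperHalfPlane.im_pos _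
  rw [e, ofComplex_apply_of_im_pos him]

theorem IsHeckeMaass.heckeP {N : ℕ} {f : ℍ → ℝ} {lam : ℝ} {a : ℕ → ℝ} (h : IsHeckeMaass N f lam a) {p : ℕ}
    (hp : p.Prime) (hpN : p ≠ N) : Pool.Agent.T2H31.HeckeP f p (a p) := by
  intro z
  have h1 := h.hecke p hp hpN z z.im_pos
  have h2 : onC f z = f z := by simp [onC]
  rw [h2] at h1
  rw [← h1]
  congr 1
  · simp only [onC, Pool.Agent.T2H31.hp]
    congr 2
    simp
  · refine Finset.sum_congr rfl fun b _ => ?_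
    simp only [onC, Pool.Agent.T2H31.hp]
    congr 2
    simp

theorem sum_rep (N : ℕ) (f g : ℍ → ℝ) : petersson N f g =
    ∑ r : Option (Fin N), ∫ u in 𝒟, f (Pool.Agent.T2H31.rep N r • u) * g (Pool.Agent.T2H31.rep N r • u) := by
  rw [Fintype.sum_option, petersson, Finset.sum_range]
  congr 1
  simp [Pool.Agent.T2H31.rep]

/-- A Petersson-orthonormal family of Hecke–Maass cusp forms for `Γ₀(N)` with Laplace eigenvalues
at most `L`. -/
def IsFamily (N : ℕ) (L : ℝ) {n : ℕ} (f : Fin n → ℍ → ℝ) (a : Fin n → ℕ → ℝ) : Prop :=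
  ∃ lam : Fin n → ℝ, (∀ j, IsHeckeMaass N (f j) (lam j) (a j)) ∧ (∀ j, lam j ≤ L) ∧
    ∀ i j, petersson N (f i) (f j) = if i = j then 1 else 0

theorem IsFamily.sys {N : ℕ} {L : ℝ} {n : ℕ} {f : Fin n → ℍ → ℝ} {lam : Fin n → ℝ} {a : Fin n → ℕ → ℝ}
    (hf : ∀ j, IsHeckeMaass N (f j) (lam j) (a j)) (hlam : ∀ j, lam j ≤ L)
    (horth : ∀ i j, petersson N (f i) (f j) = if i = j then 1 else 0) :
    Pool.Agent.T2H31.Sys0 (CongruenceSubgroup.Gamma0 N) (Pool.Agent.T2H31.rep N) f lam L :=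
  { smooth := fun j => (hf j).smooth
    inv := fun j => (hf j).inv
    lap := fun j u => (hf j).hyp u
    bound := fun j => by
      rw [abs_of_nonneg (hf j).nonneg]
      exact hlam j
    sq_int := fun j r => by
      rcases r with _ | i
      · simpa [Pool.Agent.T2H31.rep] using (hf j).squareIntegrable
      · exact (hf j).squareIntegrable' i i.2
    norm := fun j => by
      have := horth j j
      rw [if_pos rfl, sum_rep] at this
      rw [← this]
      refine Finset.sum_congr rfl fun r _ => ?_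
      refine setIntegral_congr_fun Pool.Agent.T2H31.meas_fd fun z _ => ?_
      exact sq _
    orth := fun i j hij => by
      rw [← sum_rep, horth i j, if_neg hij] }

/-- (1) The number of forms in the family which are exceptional at `k` or more primes of `P` is at most
`10⁴ N L (8·10⁶ k² ∑_{p ∈ P} (log p / log (N L))³)^k + 2·10¹² (N L)^{23/24}`, uniformly in `k`.
(2) **For all but at most `(N L)^(1 - c / log log (N L))` of the forms the proportion of exceptional primes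
among the primes `p ≤ A log (N L)` is less than `ε`.** -/
theorem result :
    (∀ N : ℕ, N.Prime → ∀ L : ℝ, 1 ≤ L → ∀ k : ℕ, 1 ≤ k →
      ∀ P : Finset ℕ, (∀ p ∈ P, p.Prime ∧ p ≠ N ∧ (p : ℝ) ≤ ((N : ℝ) * L) ^ (1 / (24 * k) : ℝ)) →
      ∀ (n : ℕ) (f : Fin n → ℍ → ℝ) (a : Fin n → ℕ → ℝ), IsFamily N L f a →
        (∀ j, k ≤ (P.filter fun p : ℕ => 2 ≤ |a j p|).card) →
        (n : ℝ) ≤ 10000 * (N * L) * (8000000 * k ^ 2 * ∑ p ∈ P, (Real.log p / Real.log (N * L)) ^ 3) ^ k +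
          2000000000000 * ((N : ℝ) * L) ^ (23 / 24 : ℝ)) ∧
    (∀ ε : ℝ, 0 < ε → ∀ A : ℝ, 0 < A → ∃ c : ℝ, 0 < c ∧ ∃ V₀ : ℝ, 1 < V₀ ∧
      ∀ N : ℕ, N.Prime → ∀ L : ℝ, 1 ≤ L → V₀ ≤ N * L →
      ∀ (n : ℕ) (f : Fin n → ℍ → ℝ) (a : Fin n → ℕ → ℝ), IsFamily N L f a →
        (∀ j, ε * ((Nat.primesLE ⌊A * Real.log (N * L)⌋₊).card : ℝ) ≤
          (((Nat.primesLE ⌊A * Real.log (N * L)⌋₊).filter fun p : ℕ => p ≠ N ∧ 2 ≤ |a j p|).card : ℝ)) →
        (n : ℝ) ≤ ((N : ℝ) * L) ^ (1 - c / Real.log (Real.log (N * L)))) := by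
  have part1 : ∀ N : ℕ, N.Prime → ∀ L : ℝ, 1 ≤ L → ∀ k : ℕ, 1 ≤ k →
      ∀ P : Finset ℕ, (∀ p ∈ P, p.Prime ∧ p ≠ N ∧ (p : ℝ) ≤ ((N : ℝ) * L) ^ (1 / (24 * k) : ℝ)) →
      ∀ (n : ℕ) (f : Fin n → ℍ → ℝ) (a : Fin n → ℕ → ℝ), IsFamily N L f a →
        (∀ j, k ≤ (P.filter fun p : ℕ => 2 ≤ |a j p|).card) →
        (n : ℝ) ≤ 10000 * (N * L) * (8000000 * k ^ 2 * ∑ p ∈ P, (Real.log p / Real.log (N * L)) ^ 3) ^ k +
          2000000000000 * ((N : ℝ) * L) ^ (23 / 24 : ℝ) := by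
    intro N hN L hL k hk P hP n f a hfam hex
    obtain ⟨lam, hf, hlam, horth⟩ := hfam
    have key := Pool.Agent.T2H31.final_W (IsFamily.sys hf hlam horth) hN hL (fun j y hy => (hf j).cusp y hy)
      (fun j y hy => (hf j).cusp0 y hy) hk (fun p hp => ⟨(hP p hp).1, (hP p hp).2.2⟩) a
      (fun j p hp => (hf j).heckeP (hP p hp).1 (hP p hp).2.1) hex
    rwa [Fintype.card_fin] at key
  refine ⟨part1, ?_⟩
  intro ε hε A hA
  obtain ⟨c, hc, V₀, hV₀, h⟩ := Pool.Agent.T2H31.num hε hA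
  refine ⟨c, hc, V₀, hV₀, ?_⟩
  intro N hN L hL hV n f a hfam hex
  obtain ⟨k, hk1, hk2, hk3, hk4⟩ := h (N * L) hV
  have hV1 : 1 < (N : ℝ) * L := hV₀.trans_le hV
  set Q := Nat.primesLE ⌊A * Real.log (N * L)⌋₊ with hQ
  have hcard : ∀ j, k ≤ ((Q.filter fun p => p ≠ N).filter fun p : ℕ => 2 ≤ |a j p|).card := by
    intro j
    have h1 := hk2.trans (hex j)
    rw [Finset.filter_filter]
    exact_mod_cast h1
  have key := part1 N hN L hL k hk1 (Q.filter fun p => p ≠ N) (fun p hp => by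
    rw [Finset.mem_filter] at hp
    exact ⟨Nat.prime_of_mem_primesLE hp.1, hp.2, hk3 p hp.1⟩) n f a hfam hcard
  refine key.trans (le_trans ?_ hk4)
  have hl : 0 < Real.log (N * L) := Real.log_pos hV1
  have hnn : ∀ p ∈ Q, 0 ≤ (Real.log p / Real.log (N * L)) ^ 3 := by
    intro p hp
    have hp1 := Nat.prime_of_mem_primesLE hp
    have h3 : 0 ≤ Real.log p := Real.log_nonneg (by exact_mod_cast hp1.one_lt.le)
    positivity
  have hsum : ∑ p ∈ Q.filter fun p => p ≠ N, (Real.log p / Real.log (N * L)) ^ 3 ≤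
      ∑ p ∈ Q, (Real.log p / Real.log (N * L)) ^ 3 :=
    Finset.sum_le_sum_of_subset_of_nonneg (Finset.filter_subset _ _) fun p hp _ => hnn p hp
  have hsum0 : 0 ≤ ∑ p ∈ Q.filter fun p => p ≠ N, (Real.log p / Real.log (N * L)) ^ 3 :=
    Finset.sum_nonneg fun p hp => hnn p (Finset.mem_filter.1 hp).1
  have hV0 : 0 < (N : ℝ) * L := by linarith
  gcongr

end Pool.Agent.Results.MP_8410ab_nt.MostSmallPrimes
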